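import Pool.Agent.H612.AffMain

/-!
# Affine polynomial projection is hard for the existential theory of the reals

Instances of the affine polynomial projection problem are triples `(n, f, g)` of a number of
variables and two polynomials `f, g ∈ ℤ[x₁, …, xₙ]` given by their nonzero coefficients and
exponent vectors.  The question is whether there are a real `n × n` matrix `A`, which need not be
invertible, and a vector `b ∈ ℝⁿ` with `f(x) = g(A x + b)` for all `x ∈ ℝⁿ`.

The problem is `∃ℝ`-hard under polynomial-time many-one reductions, even for instances in which `f`
is the fixed polynomial `x₁² x₂²` and `g` is homogeneous of degree `4`.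
-/

namespace Pool.Agent.Results.MP_ca1301_lc.AffineProjectionHard

open Pool.Agent.NPC Pool.Agent.NPC.ER Pool.Agent.NPC.H612

/-- The affine polynomial projection problem is `∃ℝ`-hard, and it stays `∃ℝ`-hard when `f` is the
polynomial `x₁² x₂²` and every term of `g` has degree `4`. -/
theorem result :
    ERHard (lang AffineProjection) ∧ ERHardWithin QuarticInstance AffineProjection :=
  ⟨affine_hard.toERHard, affine_hard⟩

end Pool.Agent.Results.MP_ca1301_lc.AffineProjectionHard
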